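import Pool.Agent.Helper84.RFRingsProof

/-!
The class of residually finite (associative, not necessarily unital) rings is axiomatised by a
single sentence of `L_{ω₁,ω}`, in particular it is axiomatizable in `L_{∞,∞}`.

The logic is defined in `Pool/Agent/Helper84/InfLogic.lean`, the signature of rings and residual
finiteness in `Pool/Agent/Helper84/RFRingsDefs.lean`.
-/

namespace Pool.Agent.Results.MP_f264ea_lc.ResiduallyFiniteRings

open FirstOrder Pool.Agent.Helper84 Pool.Agent.Helper84.RFRings

universe v

/-- There is a sentence `φ` of `L_{∞,∞}` in the signature of rings, lying even in `L_{ω₁,ω}`,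
whose models are exactly the residually finite rings. -/
theorem result :
    ∃ φ : InfSentence.{0} ringSignature, φ.IsOmega1Omega ∧
      ∀ (M : Type v) [ringSignature.Structure M],
        φ.Holds M ↔ ∃ _ : NonUnitalRing M, Interprets M ∧ ResiduallyFinite M :=
  main

end Pool.Agent.Results.MP_f264ea_lc.ResiduallyFiniteRings
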